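import Pool.Agent.helper62.RS.SpecS
import Pool.Agent.helper62.QU.All

set_option autoImplicit false

open scoped MatrixGroups ContDiff Topology UpperHalfPlane
open UpperHalfPlane MeasureTheory Filter Set

namespace Pool.Agent.RS

/-- `z ↦ re z + im z • w` -/
noncomputable def SCV_T (w : ℂ) : ℂ →L[ℝ] ℂ :=
  (Complex.ofRealCLM ∘L Complex.reCLM) + Complex.imCLM.smulRight w

theorem SCV_T_apply (w z : ℂ) : SCV_T w z = (z.re : ℂ) + z.im * w := by
  simp [SCV_T]

theorem SCV_T_im (w z : ℂ) : (SCV_T w z).im = z.im * w.im := by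
  rw [SCV_T_apply]
  simp

theorem SCV_T_re (w z : ℂ) : (SCV_T w z).re = z.re + z.im * w.re := by
  rw [SCV_T_apply]
  simp

theorem SCV_T_det (w : ℂ) : (SCV_T w).det = w.im := by
  rw [ContinuousLinearMap.det, ← LinearMap.det_toMatrix Complex.basisOneI, Matrix.det_fin_two]
  simp [LinearMap.toMatrix_apply, SCV_T]

theorem SCV_T_image (w : ℂ) (hw : 0 < w.im) : SCV_T w '' {z : ℂ | 0 < z.im} = {z : ℂ | 0 < z.im} := by
  ext u
  constructor
  · rintro ⟨z, hz, rfl⟩
    show 0 < (SCV_T w z).im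
    rw [SCV_T_im]
    exact mul_pos hz hw
  · intro hu
    refine ⟨⟨u.re - u.im / w.im * w.re, u.im / w.im⟩, div_pos hu hw, ?_⟩
    apply Complex.ext
    · rw [SCV_T_re]
      ring
    · rw [SCV_T_im]
      field_simp

theorem SCV_T_inj (w : ℂ) (hw : 0 < w.im) : Function.Injective (SCV_T w) := by
  intro z z' h
  have h1 := congrArg Complex.im h
  have h2 := congrArg Complex.re h
  rw [SCV_T_im, SCV_T_im] at h1
  rw [SCV_T_re, SCV_T_re] at h2
  have h3 := mul_right_cancel₀ hw.ne' h1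
  rw [h3] at h2
  exact Complex.ext (by linarith) h3

theorem SCV_smul (z w : ℍ) : ((toSL2R z • w : ℍ) : ℂ) = SCV_T w z := by
  rw [coe_specialLinearGroup_apply, SCV_T_apply, coe_toSL2R]
  have h1 : (0 : ℝ) < √z.im := Real.sqrt_pos.2 z.im_pos
  have h2 : ((√z.im : ℝ) : ℂ) ≠ 0 := by exact_mod_cast h1.ne'
  have h3 : ((√z.im : ℝ) : ℂ) * ((√z.im : ℝ) : ℂ) = (z.im : ℂ) := by
    rw [← Complex.ofReal_mul, Real.mul_self_sqrt z.im_pos.le]
  simp
  field_simp
  rw [pow_two, h3]
  ring

/-- the substitution on the half-plane -/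
theorem SCV_sub (χ : ℍ → ℝ) (w : ℍ) : ∫ z : ℍ, χ (toSL2R z • w) = w.im * ∫ z : ℍ, χ z := by
  have hI := QU.A_INV.2.2.2.2
  rw [hI ℝ χ, hI ℝ fun z => χ (toSL2R z • w)]
  have hs : MeasurableSet {z : ℂ | 0 < z.im} := measurableSet_lt measurable_const Complex.measurable_im
  have h1 := integral_image_eq_integral_abs_det_fderiv_smul volume hs
    (fun z _ => (SCV_T w).hasFDerivAt.hasFDerivWithinAt) (SCV_T_inj w w.im_pos).injOn
    (fun u : ℂ => ((u.im ^ 2)⁻¹ : ℝ) • χ (ofComplex u))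
  rw [SCV_T_image w w.im_pos] at h1
  rw [h1, ← integral_const_mul]
  refine setIntegral_congr_fun hs fun z hz => ?_
  have hz' : 0 < z.im := hz
  have h2 : ofComplex (SCV_T w z) = toSL2R (ofComplex z) • w := by
    have h3 : ((toSL2R (ofComplex z) • w : ℍ) : ℂ) = SCV_T w z := by
      rw [SCV_smul, ofComplex_apply_of_im_pos hz']
    rw [← h3, ofComplex_apply]
  have h4 : (w : ℂ).im = w.im := rfl
  have hw := w.im_pos
  simp only [smul_eq_mul]
  rw [h2, SCV_T_det, SCV_T_im, h4, abs_of_pos hw]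
  field_simp

theorem SCV_im (z w : ℍ) : (toSL2R z • w : ℍ).im = z.im * w.im := by
  have h1 := congrArg Complex.im (SCV_smul z w)
  rw [SCV_T_im] at h1
  exact h1

theorem SCV_toSL (z : ℍ) : toSL2R z = nM z.re * aM (Real.log z.im) := by
  have hz := z.im_pos
  have h1 : Real.exp (Real.log z.im / 2) = √z.im := by
    rw [Real.sqrt_eq_rpow, Real.rpow_def_of_pos hz]
    congr 1
    ring
  have h2 : Real.exp (-(Real.log z.im / 2)) = 1 / √z.im := by
    rw [Real.exp_neg, h1, one_div]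
  apply Subtype.ext
  rw [coe_toSL2R, Matrix.SpecialLinearGroup.coe_mul]
  show _ = (!![1, z.re; 0, 1] : Matrix (Fin 2) (Fin 2) ℝ) *
    !![Real.exp (Real.log z.im / 2), 0; 0, Real.exp (-(Real.log z.im / 2))]
  rw [h1, h2, Matrix.mul_fin_two]
  congr 1
  ext i j
  fin_cases i <;> fin_cases j <;> simp [div_eq_mul_inv]

/-- a bump function -/
theorem SCV_bump : ∃ χ : ℍ → ℝ, Continuous χ ∧ HasCompactSupport χ ∧ ∫ z : ℍ, χ z = 1 := by
  have := QU.A_INV.2.2.1
  obtain ⟨f, hf1, -, hf3, hf4⟩ := exists_continuous_one_zero_of_isCompact (isCompact_singleton (x := I)) isClosed_empty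
    (disjoint_empty _)
  have hf0 : f I = 1 := hf1 (mem_singleton _)
  have hpos : 0 < ∫ z : ℍ, f z := by
    refine f.continuous.integral_pos_of_hasCompactSupport_nonneg_nonzero hf3 (fun z => (hf4 z).1) (x := I) ?_
    rw [hf0]
    exact one_ne_zero
  refine ⟨fun z => (∫ z : ℍ, f z)⁻¹ * f z, continuous_const.mul f.continuous, hf3.mul_left, ?_⟩
  rw [integral_const_mul]
  exact inv_mul_cancel₀ hpos.ne'

theorem SCV (hGLC : GLC_stmt) (hGMG : GMG_stmt) (hGRI : GRI_stmt) : SCV_stmt := by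
  intro f hf hinv h
  obtain ⟨-, -, hcomp, -, -, -, hkM, -, -, -, -, -, -, -, -, hkI, -⟩ := hGLC
  obtain ⟨-, -, -, -, hGM⟩ := hGMG
  obtain ⟨χ, hχ, hχc, hχ1⟩ := SCV_bump
  have hfz : ∀ (z : ℍ) (g : SL(2, ℝ)), f (toSL2R z * g) = (z.im : ℂ) * f g := by
    intro z g
    rw [SCV_toSL, hinv, Real.exp_log z.im_pos]
  set U : SL(2, ℝ) → ℂ := fun g => ((χ (g • I) / (g • I : ℍ).im : ℝ) : ℂ) * f g with hU
  have hact : Continuous fun g : SL(2, ℝ) => (g • I : ℍ) := by fun_prop
  have hUc : Continuous U := by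
    refine (Complex.continuous_ofReal.comp ((hχ.comp hact).div (continuous_im.comp hact) fun g => ?_)).mul hf
    exact (g • I : ℍ).im_pos.ne'
  -- values
  have hUv : ∀ (z : ℍ) (g : SL(2, ℝ)), U (toSL2R z * g) =
      (χ (toSL2R z • (g • I)) : ℂ) * (f g / ((g • I : ℍ).im : ℂ)) := by
    intro z g
    simp only [hU]
    rw [hfz, mul_smul, SCV_im]
    have h1 : (z.im : ℂ) ≠ 0 := by exact_mod_cast z.im_pos.ne'
    have h2 : ((g • I : ℍ).im : ℂ) ≠ 0 := by exact_mod_cast (g • I : ℍ).im_pos.ne'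
    push_cast
    field_simp
  -- first integral
  set K : Set ℍ := tsupport χ with hK
  have hKc : IsCompact K := hχc
  have hKm : MeasurableSet K := hKc.measurableSet
  have hχK : ∀ z, z ∉ K → χ z = 0 := fun z hz => image_eq_zero_of_notMem_tsupport hz
  have e1 : ∫ g, U g ∂mG = ((2 * Real.pi)⁻¹ : ℝ) • ∫ θ in (0 : ℝ)..(2 * Real.pi), f (kM θ) := by
    rw [← setIntegral_eq_integral_of_forall_compl_eq_zero (s := dG K) (fun g hg => by
      simp only [hU]
      rw [hχK _ hg]
      simp), (hGM ℂ U K hUc hKm ⟨K, hKc, subset_rfl⟩).2]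
    have h1 : ∀ z : ℍ, ((2 * Real.pi)⁻¹ : ℝ) • ∫ θ in (0 : ℝ)..(2 * Real.pi), U (toSL2R z * kM θ) =
        (χ z : ℂ) * (((2 * Real.pi)⁻¹ : ℝ) • ∫ θ in (0 : ℝ)..(2 * Real.pi), f (kM θ)) := by
      intro z
      have h2 : ∀ θ, U (toSL2R z * kM θ) = (χ z : ℂ) * f (kM θ) := by
        intro θ
        rw [hUv, hkI, toSL2R_smul_I]
        simp
      simp only [h2]
      rw [intervalIntegral.integral_const_mul, mul_smul_comm]
    simp only [h1]
    rw [integral_mul_const, setIntegral_eq_integral_of_forall_compl_eq_zero (fun z hz => by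
      rw [hχK z hz]
      simp), integral_complex_ofReal, hχ1]
    simp
  -- translation
  have e2 : ∫ g, U (g * h) ∂mG = ∫ g, U g ∂mG := by
    have h1 := integral_map (μ := mG) (φ := fun g : SL(2, ℝ) => g * h)
      (continuous_mul_const h).measurable.aemeasurable hUc.aestronglyMeasurable
    rw [hGRI h] at h1
    exact h1.symm
  -- second integral
  set K' : Set ℍ := (fun g : SL(2, ℝ) => (g • I : ℍ)) '' ((fun g => g * h⁻¹) '' {g : SL(2, ℝ) | g • I ∈ K}) with hK'
  have hK'c : IsCompact K' := ((hcomp K hKc).image (continuous_mul_const _)).image hact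
  have hK'm : MeasurableSet K' := hK'c.measurableSet
  have hVc : Continuous fun g => U (g * h) := hUc.comp (continuous_mul_const h)
  have hV0 : ∀ g : SL(2, ℝ), g • I ∉ K' → U (g * h) = 0 := by
    intro g hg
    have h1 : (g * h) • I ∉ K := by
      intro h2
      refine hg ⟨g, ⟨g * h, h2, ?_⟩, rfl⟩
      show g * h * h⁻¹ = g
      rw [mul_inv_cancel_right]
    simp only [hU]
    rw [hχK _ h1]
    simp
  have e3 : ∫ g, U (g * h) ∂mG = ((2 * Real.pi)⁻¹ : ℝ) • ∫ θ in (0 : ℝ)..(2 * Real.pi), f (kM θ * h) := by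
    rw [← setIntegral_eq_integral_of_forall_compl_eq_zero (s := dG K') (fun g hg => hV0 g hg),
      (hGM ℂ (fun g => U (g * h)) K' hVc hK'm ⟨K', hK'c, subset_rfl⟩).2, integral_smul]
    congr 1
    have h2pi : (0 : ℝ) ≤ 2 * Real.pi := by positivity
    simp only [intervalIntegral.integral_of_le h2pi]
    rw [integral_integral_swap]
    · refine integral_congr_ae (Eventually.of_forall fun θ => ?_)
      simp only
      have hw : ∀ z : ℍ, U (toSL2R z * kM θ * h) =
          (χ (toSL2R z • ((kM θ * h) • I)) : ℂ) * (f (kM θ * h) / (((kM θ * h) • I : ℍ).im : ℂ)) := by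
        intro z
        rw [mul_assoc, hUv]
      rw [setIntegral_eq_integral_of_forall_compl_eq_zero (fun z hz => by
        refine hV0 (toSL2R z * kM θ) ?_
        rw [mul_smul, hkI, toSL2R_smul_I]
        exact hz)]
      simp only [hw]
      rw [integral_mul_const, integral_complex_ofReal, SCV_sub, hχ1, mul_one]
      have h2 : ((((kM θ * h) • I : ℍ).im : ℝ) : ℂ) ≠ 0 := by exact_mod_cast ((kM θ * h) • I : ℍ).im_pos.ne'
      field_simp
    · rw [Measure.prod_restrict]
      have hc : Continuous (Function.uncurry fun (z : ℍ) (θ : ℝ) => U (toSL2R z * kM θ * h)) := by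
        refine hUc.comp (Continuous.mul (Continuous.mul ?_ ?_) continuous_const)
        · exact continuous_toSL2R.comp continuous_fst
        · exact hkM.comp continuous_snd
      exact (hc.continuousOn.integrableOn_compact (hK'c.prod isCompact_Icc)).mono_set
        (prod_mono_right Ioc_subset_Icc_self)
  rw [e2, e1] at e3
  have h5 : ((2 * Real.pi)⁻¹ : ℝ) ≠ 0 := inv_ne_zero (by positivity)
  exact (smul_right_injective ℂ h5 e3).symm

end Pool.Agent.RS
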